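import Pool.Agent.H740R3.BQStmts

/-!
# Project H740-BQ, task T2
-/

set_option autoImplicit false

open Filter Topology Matrix Pool.Agent.H740R3.BQ

namespace Pool.Agent.H320R4.BQT2

theorem HM_inv (d : ℕ) (p : ℕ → ℂ) (ν : ℕ) (hν : (ν : ℂ) ≠ 0)
    (hG : IsUnit (GM d (dl p (ν ^ (2 * d)))).det) :
    (HM d p ν)⁻¹ = Matrix.diagonal (fun k : Fin (6 * d + 6) => (ν : ℂ) ^ (-ex d k)) *
      (GM d (dl p (ν ^ (2 * d))))⁻¹ := by
  apply Matrix.inv_eq_left_inv
  unfold HM
  calc Matrix.diagonal (fun k : Fin (6 * d + 6) => (ν : ℂ) ^ (-ex d k)) *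
        (GM d (dl p (ν ^ (2 * d))))⁻¹ * (GM d (dl p (ν ^ (2 * d))) *
          Matrix.diagonal (fun k : Fin (6 * d + 6) => (ν : ℂ) ^ (ex d k)))
      = Matrix.diagonal (fun k : Fin (6 * d + 6) => (ν : ℂ) ^ (-ex d k)) *
        ((GM d (dl p (ν ^ (2 * d))))⁻¹ * GM d (dl p (ν ^ (2 * d)))) *
          Matrix.diagonal (fun k : Fin (6 * d + 6) => (ν : ℂ) ^ (ex d k)) := by
        simp only [Matrix.mul_assoc]
    _ = 1 := by
        rw [Matrix.nonsing_inv_mul _ hG, Matrix.mul_one, Matrix.diagonal_mul_diagonal]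
        rw [← Matrix.diagonal_one]
        congr 1
        funext k
        rw [← zpow_add₀ hν]
        simp

theorem BM_apply (d : ℕ) (p : ℕ → ℂ) (ν : ℕ) (hν : (ν : ℂ) ≠ 0)
    (hG : IsUnit (GM d (dl p (ν ^ (2 * d)))).det) (i j : Fin (6 * d + 6)) :
    BM d p ν i j = ((GM d (dl p (ν ^ (2 * d))))⁻¹ * SM (6 * d + 6) *
      GM d (dl p (ν ^ (2 * d)))) i j * (ν : ℂ) ^ (ex d j - ex d i - 2 * d) := by
  unfold BM
  rw [Matrix.smul_apply, HM_inv d p ν hν hG]
  unfold HM
  have h : Matrix.diagonal (fun k : Fin (6 * d + 6) => (ν : ℂ) ^ (-ex d k)) *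
      (GM d (dl p (ν ^ (2 * d))))⁻¹ * SM (6 * d + 6) * (GM d (dl p (ν ^ (2 * d))) *
        Matrix.diagonal (fun k : Fin (6 * d + 6) => (ν : ℂ) ^ (ex d k))) =
      Matrix.diagonal (fun k : Fin (6 * d + 6) => (ν : ℂ) ^ (-ex d k)) *
      ((GM d (dl p (ν ^ (2 * d))))⁻¹ * SM (6 * d + 6) * GM d (dl p (ν ^ (2 * d)))) *
        Matrix.diagonal (fun k : Fin (6 * d + 6) => (ν : ℂ) ^ (ex d k)) := by
    simp only [Matrix.mul_assoc]
  rw [h, Matrix.mul_diagonal, Matrix.diagonal_mul, smul_eq_mul]
  have h2 : (ν : ℂ) ^ (ex d j - ex d i - 2 * d) =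
      (ν : ℂ) ^ (ex d j) * (ν : ℂ) ^ (-ex d i) * ((ν : ℂ) ^ (2 * d))⁻¹ := by
    rw [sub_eq_add_neg, sub_eq_add_neg, zpow_add₀ hν, zpow_add₀ hν]
    congr 1
    rw [_root_.zpow_neg]
    congr 1
  rw [h2]
  ring

theorem SG (d : ℕ) (δ : ℕ → ℂ) (i j : Fin (6 * d + 6)) (hj : (j : ℕ) ≠ 3 * d + 2)
    (j' : Fin (6 * d + 6)) (hj' : (j' : ℕ) = j + 1) :
    (SM (6 * d + 6) * GM d δ) i j = GM d δ i j' := by
  rw [Matrix.mul_apply]
  by_cases hi : (i : ℕ) = 0
  · rw [Finset.sum_eq_zero]
    · unfold GM
      have h1 := j'.isLt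
      split_ifs with h2 h3 h4
      all_goals first
        | rfl
        | omega
    · intro k _
      unfold SM
      rw [if_neg (by omega), zero_mul]
  · have hlt : (i : ℕ) - 1 < 6 * d + 6 := by omega
    rw [Finset.sum_eq_single (⟨(i : ℕ) - 1, hlt⟩ : Fin (6 * d + 6))]
    · unfold SM
      rw [if_pos (by simp; omega), one_mul]
      unfold GM
      simp only
      split_ifs
      all_goals first
        | rfl
        | omega
        | (congr 1; omega)
    · intro k _ hk
      unfold SM
      rw [if_neg, zero_mul]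
      intro h
      apply hk
      apply Fin.ext
      simp
      omega
    · intro h
      exact absurd (Finset.mem_univ _) h

theorem W_apply (d : ℕ) (δ : ℕ → ℂ) (hG : IsUnit (GM d δ).det) (i j : Fin (6 * d + 6))
    (hj : (j : ℕ) ≠ 3 * d + 2) (hj2 : (j : ℕ) ≠ 6 * d + 5) :
    ((GM d δ)⁻¹ * SM (6 * d + 6) * GM d δ) i j = if (i : ℕ) = j + 1 then 1 else 0 := by
  have hlt : (j : ℕ) + 1 < 6 * d + 6 := by
    have := j.isLt
    omega
  rw [Matrix.mul_assoc, Matrix.mul_apply]
  have h : ∀ k, (SM (6 * d + 6) * GM d δ) k j = GM d δ k ⟨(j : ℕ) + 1, hlt⟩ :=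
    fun k => SG d δ k j hj ⟨(j : ℕ) + 1, hlt⟩ rfl
  simp only [h]
  rw [← Matrix.mul_apply, Matrix.nonsing_inv_mul _ hG, Matrix.one_apply]
  by_cases h2 : (i : ℕ) = j + 1
  · rw [if_pos h2, if_pos (Fin.ext h2)]
  · rw [if_neg h2, if_neg]
    intro h3
    exact h2 (by rw [h3])

theorem tendsto_inv : Tendsto (fun ν : ℕ => (ν : ℂ) ^ (-1 : ℤ)) atTop (𝓝 0) := by
  have h := tendsto_inv_atTop_nhds_zero_nat (𝕜 := ℂ)
  refine h.congr fun ν => ?_
  rw [_root_.zpow_neg, zpow_one]

theorem t2 : T2 := by
  intro h0 h2a d p hd hdet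
  obtain ⟨C, hC⟩ := h2a h0 d p hd hdet
  have hν : ∀ᶠ ν : ℕ in atTop, 1 ≤ ν := eventually_ge_atTop 1
  refine ⟨?_, ?_⟩
  · filter_upwards [hC, hν] with ν h1 h2
    unfold HM
    rw [Matrix.det_mul, Matrix.det_diagonal]
    refine h1.1.mul ?_
    rw [isUnit_iff_ne_zero, Finset.prod_ne_zero_iff]
    intro k _
    apply zpow_ne_zero
    exact_mod_cast (by omega : ν ≠ 0)
  · intro i j
    by_cases hj : (j : ℕ) = 3 * d + 2 ∨ (j : ℕ) = 6 * d + 5
    · -- bounded columns
      have hjd : ¬ ((i : ℕ) = j + 1 ∧ (i : ℕ) < d) := by omega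
      rw [if_neg hjd]
      have hexp : ex d j - ex d i - 2 * d ≤ -1 := by
        have hi := i.isLt
        have hd' : (1 : ℤ) ≤ d := by exact_mod_cast hd
        have key : (3 : ℤ) - 2 * d - 6 * d * d ≤ ex d i := by
          unfold ex
          split_ifs with h1 h2
          · have h1' : (i : ℤ) ≤ d - 1 := by omega
            nlinarith
          · have h2' : (i : ℤ) ≤ 3 * d + 2 := by omega
            nlinarith
          · have h3' : (i : ℤ) ≤ 6 * d + 5 := by omega
            nlinarith
        rcases hj with hj | hj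
        · have : ex d j = 3 - 2 * d - 6 * d * d := by
            unfold ex
            rw [hj, if_neg (by omega), if_pos (by omega)]
            push_cast
            ring
          rw [this]
          linarith
        · have : ex d j = 3 - d - 6 * d * d := by
            unfold ex
            rw [hj, if_neg (by omega), if_neg (by omega)]
            push_cast
            ring
          rw [this]
          linarith
      rw [tendsto_zero_iff_norm_tendsto_zero]
      have hlim : Tendsto (fun ν : ℕ => |C| * ‖(ν : ℂ) ^ (-1 : ℤ)‖) atTop (𝓝 0) := by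
        have := (tendsto_inv.norm).const_mul |C|
        simpa using this
      refine squeeze_zero' (Eventually.of_forall fun ν => norm_nonneg _) ?_ hlim
      filter_upwards [hC, hν] with ν h1 h2
      have hν0 : (ν : ℂ) ≠ 0 := by exact_mod_cast (by omega : ν ≠ 0)
      rw [BM_apply d p ν hν0 h1.1, norm_mul]
      refine mul_le_mul ((h1.2 i j).trans (le_abs_self C)) ?_ (norm_nonneg _) (abs_nonneg _)
      rw [norm_zpow, norm_zpow, Complex.norm_natCast]
      exact zpow_le_zpow_right₀ (by exact_mod_cast h2) hexp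
    · -- exact columns
      push Not at hj
      have heq : ∀ᶠ ν : ℕ in atTop, BM d p ν i j =
          (if (i : ℕ) = j + 1 then 1 else 0) * (ν : ℂ) ^ (ex d j - ex d i - 2 * d) := by
        filter_upwards [hC, hν] with ν h1 h2
        have hν0 : (ν : ℂ) ≠ 0 := by exact_mod_cast (by omega : ν ≠ 0)
        rw [BM_apply d p ν hν0 h1.1, W_apply d _ h1.1 i j hj.1 hj.2]
      refine Tendsto.congr' (EventuallyEq.symm heq) ?_
      by_cases hij : (i : ℕ) = j + 1
      · rw [if_pos hij]
        simp only [one_mul]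
        by_cases hid : (i : ℕ) < d
        · rw [if_pos ⟨hij, hid⟩]
          have : ex d j - ex d i - 2 * d = 0 := by
            unfold ex
            rw [if_pos (by omega), if_pos hid, hij]
            push_cast
            ring
          rw [this]
          simp
        · rw [if_neg (fun h => hid h.2)]
          have : ex d j - ex d i - 2 * d = -1 := by
            have hi := i.isLt
            unfold ex
            by_cases h1 : (j : ℕ) < d
            · have h2 : (i : ℕ) = d := by omega
              have h3 : (j : ℤ) = d - 1 := by omega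
              rw [if_pos h1, if_neg hid, if_pos (by omega), h2, h3]
              ring
            · by_cases h4 : (i : ℕ) < 3 * d + 3
              · rw [if_neg h1, if_pos (by omega), if_neg hid, if_pos h4, hij]
                push_cast
                ring
              · rw [if_neg h1, if_neg (by omega), if_neg hid, if_neg h4, hij]
                push_cast
                ring
          rw [this]
          exact tendsto_inv
      · rw [if_neg hij, if_neg (fun h => hij h.1)]
        simp

end Pool.Agent.H320R4.BQT2
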